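import Pool.Agent.Run7.h371.TB.Bas

/-!
# MP_64ccd3_an: assembly from the pieces
-/

set_option autoImplicit false

namespace Run7.h371.TB

open Complex MeasureTheory Filter Topology Set Metric

theorem keyIdentity (hAbel : AbelBound) (hFTC : CurveFTC) (hIC : InnerCauchy) (hOC : OuterCauchy)
    (hB : Bessel) (hT : TBound) (hCF : CurveFacts) (hKS : KeySplit) (hKL : KeyLim) (hKE : KeyEll) :
    KeyIdentity := by
  intro a E M hD σ hσ hσ'
  obtain ⟨hC, hM, hTb, hQb⟩ := hT hAbel a E M hD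
  obtain ⟨-, -, -, mAE, mNE, -, -, -, hκ, mk1, mk2, cw1, cw2, hN, hα⟩ :=
    hCF E hD.closed hD.ne hD.circ σ hσ hσ'
  have hsplit := hKS hIC hOC hFTC hCF a E (2 * M) hC hD.closed hD.ne hD.circ σ hσ hσ'
  have hlim := hKL hAbel hT hCF a E M hD σ hσ hσ'
  obtain ⟨Y, hY⟩ : ∃ Y : ℕ → ℂ, ∀ n, Y n =
    ∫ t in NE E, T a n (w (rad E (-σ)) t) * κ (rad E (-σ)) t := ⟨_, fun _ => rfl⟩
  obtain ⟨W, hW⟩ : ∃ W : ℕ → ℂ, ∀ n, W n =
    ∫ t in NE E, Q a n (w (rad E σ) t) * κ (rad E σ) t := ⟨_, fun _ => rfl⟩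
  obtain ⟨J, hJ⟩ : ∃ J : ℕ → ℂ, ∀ n, J n = (2 * Real.pi * I * a n - Y n) / I := ⟨_, fun _ => rfl⟩
  have hJlim : ∀ n : ℕ, Tendsto (fun s : ℝ => ∫ t in AE E, T a n ((s : ℂ) * u t)) (𝓝[<] 1)
      (𝓝 (J n)) := by
    intro n
    rw [hJ, hY]
    have h1 := (hlim n).const_sub (2 * Real.pi * I * a n)
    have h2 := h1.div_const I
    refine h2.congr' ?_
    have h3 : ∀ᶠ s : ℝ in 𝓝[<] (1 : ℝ), (0 : ℝ) < s :=
      (eventually_gt_nhds (zero_lt_one (α := ℝ))).filter_mono nhdsWithin_le_nhds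
    filter_upwards [h3, self_mem_nhdsWithin] with s hs hs'
    have h4 := (hsplit n).1 s hs hs'
    rw [h4, add_sub_cancel_right, mul_div_cancel_left₀ _ I_ne_zero]
  have hL := hKE hAbel hB a E M hD J hJlim
  refine ⟨_, hL, fun n => ?_⟩
  have h2 := (hsplit n).2
  haveI : IsFiniteMeasure (volume.restrict (NE E)) :=
    ⟨by rw [Measure.restrict_apply_univ]; exact (NE_fin E).lt_top⟩
  have hint1 : IntegrableOn (fun t => T a n (w (rad E (-σ)) t) * κ (rad E (-σ)) t) (NE E) := by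
    refine Integrable.of_bound ?_ (2 * M * (1 + 1 / σ) * 2) ?_
    · refine AEStronglyMeasurable.mul ?_ mk1.aestronglyMeasurable
      refine ContinuousOn.aestronglyMeasurable (f := fun t => T a n (w (rad E (-σ)) t)) ?_ mNE
      refine (T_cont hC n).comp cw1.continuousOn fun t ht => ?_
      rw [mem_ball_zero_iff]
      exact (hN t ht).2.1
    · refine (ae_restrict_iff' mNE).2 (Eventually.of_forall fun t ht => ?_)
      obtain ⟨α, hαE, h4, -⟩ := hα t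
      have h5 := h4 1 one_pos le_rfl
      rw [ofReal_one, one_mul] at h5
      have h6 := hTb n α hαE (w (rad E (-σ)) t) (hN t ht).2.1
      rw [norm_mul]
      refine mul_le_mul (h6.trans ?_) (hκ t).1 (norm_nonneg _) (by positivity)
      rw [div_le_iff₀ (sub_pos.2 (hN t ht).2.1), mul_assoc (2 * M)]
      exact mul_le_mul_of_nonneg_left h5 (by linarith)
  have hint2 : IntegrableOn (fun t => Q a n (w (rad E σ) t) * κ (rad E σ) t) (NE E) := by
    refine Integrable.of_bound ?_ (2 * M * (1 + 1 / σ) * 2) ?_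
    · refine AEStronglyMeasurable.mul ?_ mk2.aestronglyMeasurable
      refine ContinuousOn.aestronglyMeasurable (f := fun t => Q a n (w (rad E σ) t)) ?_ mNE
      unfold Q S
      refine ContinuousOn.mul (ContinuousOn.inv₀ (by fun_prop) fun t ht => ?_) (by fun_prop)
      refine pow_ne_zero _ fun h => ?_
      have := (hN t ht).2.2
      rw [h, norm_zero] at this
      linarith
    · refine (ae_restrict_iff' mNE).2 (Eventually.of_forall fun t ht => ?_)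
      obtain ⟨α, hαE, -, h4⟩ := hα t
      have h6 := hQb n α hαE (w (rad E σ) t) (hN t ht).2.2
      rw [norm_mul]
      refine mul_le_mul (h6.trans ?_) (hκ t).2 (norm_nonneg _) (by positivity)
      rw [div_le_iff₀ (sub_pos.2 (hN t ht).2.2), mul_assoc (2 * M)]
      exact mul_le_mul_of_nonneg_left h4 (by linarith)
  rw [integral_add hint1 hint2, ← hY, ← hW]
  rw [← hW] at h2
  have h3 : I * J n = 2 * Real.pi * I * a n - Y n := by
    rw [hJ, mul_div_cancel₀ _ I_ne_zero]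
  rw [mul_add, h3]
  linear_combination h2

theorem coeffZero (hAbel : AbelBound) (hR : RieszTrick) (hT : TBound) (hCF : CurveFacts)
    (hH : Halves) (hLC : LocalCont) (hGC : GlobalCont) (hLB : LimBound) (hPB : PhiBound)
    (hKI : KeyIdentity) (hLI : LimitIdentity) (hSL : SigmaLimit) (hEx : Extract) : CoeffZero := by
  intro a E M hD hreg
  by_contra hcon
  obtain ⟨hC, hM, -, -⟩ := hT hAbel a E M hD
  obtain ⟨φ, b, hLim, hb0⟩ := hEx a (2 * M) hC hcon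
  obtain ⟨hbC, hb1, hb2⟩ := hLB hAbel a E M hD φ b hLim
  obtain ⟨Φ, hΦ, hΦ1, hΦ2⟩ := hGC b (2 * M) hbC E hD.closed (fun ζ hζ hζE => by
    obtain ⟨r, g, hg⟩ := hreg ζ hζ hζE
    exact hLC hR hH a (2 * M) hC φ b hLim ζ r g hζ hg)
  have hΦb := hPB hR b E M hD.closed hD.ne hD.circ hM hb1 hb2 Φ hΦ hΦ1 hΦ2
  exact hb0 (hSL hCF b E M hD.closed hD.ne hD.circ Φ hΦ hΦ1 hΦ2 hΦb (fun σ hσ hσ' =>
    hLI hAbel hT hCF hH a E M hD φ b hLim σ hσ hσ' (hKI a E M hD σ hσ hσ')))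

theorem final (hR : RieszTrick) (hRC : RieszConv) (hCZ : CoeffZero) :
  ∀ (a : ℕ → ℂ) (E : Set ℂ),
    E = {ξ : ℂ | ‖ξ‖ = 1 ∧ ¬ ∃ r : ℝ, 0 < r ∧ ∃ g : ℂ → ℂ,
          DifferentiableOn ℂ g (Metric.ball ξ r) ∧
          ∀ w ∈ Metric.ball ξ r, ‖w‖ < 1 → g w = ∑' n, a n * w ^ n} →
    (∃ M : ℝ, ∀ ξ ∈ E, ∀ N : ℕ, ‖∑ n ∈ Finset.range (N + 1), a n * ξ ^ n‖ ≤ M) →
    E.Nonempty →
    ∀ z : ℂ, ‖z‖ = 1 → z ∉ E →
      ∃ L : ℂ, Filter.Tendsto (fun N : ℕ => ∑ n ∈ Finset.range N, a n * z ^ n)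
            Filter.atTop (nhds L) ∧
        ∃ r : ℝ, 0 < r ∧ ∃ g : ℂ → ℂ, DifferentiableOn ℂ g (Metric.ball z r) ∧
          (∀ w ∈ Metric.ball z r, ‖w‖ < 1 → g w = ∑' n, a n * w ^ n) ∧ g z = L := by
  intro a E hE hM hne z hz hzE
  obtain ⟨M, hM⟩ := hM
  have hM0 : 0 ≤ M := by
    obtain ⟨ξ, hξ⟩ := hne
    exact (norm_nonneg _).trans (hM ξ hξ 0)
  have hreg : ∀ ζ : ℂ, ‖ζ‖ = 1 → ζ ∉ E → ∃ (r : ℝ) (g : ℂ → ℂ), Cont a ζ r g := by
    intro ζ hζ hζE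
    rw [hE] at hζE
    have h1 : ∃ r : ℝ, 0 < r ∧ ∃ g : ℂ → ℂ, DifferentiableOn ℂ g (Metric.ball ζ r) ∧
          ∀ w ∈ Metric.ball ζ r, ‖w‖ < 1 → g w = ∑' n, a n * w ^ n := by
      by_contra h
      exact hζE ⟨hζ, h⟩
    obtain ⟨r, hr, g, hg, hg'⟩ := h1
    exact ⟨r, g, hr, hg, hg'⟩
  have hD : Dat a E M := by
    refine ⟨isClosed_sing a hE, hne, fun ξ hξ => ?_, fun ξ hξ n => ?_⟩
    · rw [hE] at hξ
      exact hξ.1
    · cases n with
      | zero => simpa [S] using hM0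
      | succ n => exact hM ξ hξ n
  have ha := hCZ a E M hD hreg
  obtain ⟨r, g, hg⟩ := hreg z hz hzE
  exact ⟨g z, hRC hR a ha z r g hz hg, r, hg.1, g, hg.2.1, hg.2.2, rfl⟩

end Run7.h371.TB
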