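import Pool.Agent.Run7.h371.TB.Iface

/-!
# MP_64ccd3_an: small facts for the assembly
-/

set_option autoImplicit false

namespace Run7.h371.TB

open Complex MeasureTheory Filter Topology Set Metric

theorem T_cont {a : ℕ → ℂ} {C : ℝ} (hC : ∀ n, ‖a n‖ ≤ C) (n : ℕ) :
    ContinuousOn (T a n) (ball (0 : ℂ) 1) := by
  intro z hz
  rw [mem_ball_zero_iff] at hz
  obtain ⟨r, hr1, hr2⟩ := exists_between hz
  have hr0 : 0 ≤ r := (norm_nonneg z).trans hr1.le
  have h1 : ContinuousOn (T a n) (closedBall (0 : ℂ) r) := by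
    refine continuousOn_tsum (u := fun j => C * r ^ j) (fun j => by fun_prop)
      ((summable_geometric_of_lt_one hr0 hr2).mul_left _) fun j x hx => ?_
    rw [mem_closedBall_zero_iff] at hx
    rw [norm_mul, norm_pow]
    exact mul_le_mul (hC _) (pow_le_pow_left₀ (norm_nonneg _) hx _) (by positivity)
      ((norm_nonneg _).trans (hC 0))
  refine (h1.continuousAt ?_).continuousWithinAt
  refine Filter.mem_of_superset (isOpen_ball.mem_nhds (mem_ball_zero_iff.2 hr1)) ball_subset_closedBall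

theorem NE_fin (E : Set ℂ) : volume (NE E) ≠ ⊤ := by
  have h1 : volume (NE E) ≤ volume (Ioc 0 (2 * Real.pi)) := measure_mono fun t ht => ht.1
  refine (lt_of_le_of_lt h1 ?_).ne
  rw [Real.volume_Ioc]
  exact ENNReal.ofReal_lt_top

theorem isClosed_sing {R : Set ℂ} (a : ℕ → ℂ)
    (hR : R = {ξ : ℂ | ‖ξ‖ = 1 ∧ ¬ ∃ r : ℝ, 0 < r ∧ ∃ g : ℂ → ℂ,
          DifferentiableOn ℂ g (Metric.ball ξ r) ∧
          ∀ w ∈ Metric.ball ξ r, ‖w‖ < 1 → g w = ∑' n, a n * w ^ n}) : IsClosed R := by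
  have h1 : IsOpen {ξ : ℂ | ∃ r : ℝ, 0 < r ∧ ∃ g : ℂ → ℂ,
          DifferentiableOn ℂ g (Metric.ball ξ r) ∧
          ∀ w ∈ Metric.ball ξ r, ‖w‖ < 1 → g w = ∑' n, a n * w ^ n} := by
    rw [Metric.isOpen_iff]
    rintro ξ ⟨r, hr, g, hg, hg'⟩
    refine ⟨r / 2, half_pos hr, fun ξ' hξ' => ⟨r / 2, half_pos hr, g, ?_, ?_⟩⟩
    · refine hg.mono fun x hx => ?_
      rw [mem_ball] at hx hξ' ⊢
      have := dist_triangle x ξ' ξ
      linarith
    · intro x hx hx1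
      refine hg' x ?_ hx1
      rw [mem_ball] at hx hξ' ⊢
      have := dist_triangle x ξ' ξ
      linarith
  have h2 : R = sphere (0 : ℂ) 1 ∩ {ξ : ℂ | ∃ r : ℝ, 0 < r ∧ ∃ g : ℂ → ℂ,
          DifferentiableOn ℂ g (Metric.ball ξ r) ∧
          ∀ w ∈ Metric.ball ξ r, ‖w‖ < 1 → g w = ∑' n, a n * w ^ n}ᶜ := by
    rw [hR]
    ext ξ
    simp only [mem_ofPred_eq, mem_inter_iff, mem_sphere_zero_iff_norm, mem_compl_iff]
  rw [h2]
  exact isClosed_sphere.inter h1.isClosed_compl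

end Run7.h371.TB
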