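import Mathlib

/-!
# Power series with bounded partial sums on the singular set (MP_64ccd3_an): definitions
-/

set_option autoImplicit false

namespace Run7.h371.TB

open Complex MeasureTheory Filter Topology Set Metric

/-- The sum of the first `n` terms at `z`. -/
noncomputable def S (a : ℕ → ℂ) (n : ℕ) (z : ℂ) : ℂ := ∑ j ∈ Finset.range n, a j * z ^ j

/-- The sum of the power series. -/
noncomputable def P (a : ℕ → ℂ) (z : ℂ) : ℂ := ∑' j : ℕ, a j * z ^ j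

/-- The shifted series: `T a n z = ∑ a (n + j) z ^ j = (P a z - S a n z) / z ^ n` for `|z| < 1`. -/
noncomputable def T (a : ℕ → ℂ) (n : ℕ) (z : ℂ) : ℂ := ∑' j : ℕ, a (n + j) * z ^ j

/-- `Q a n z = S a n z / z ^ n = ∑_{i < n} a (n - 1 - i) z ^ (-(i + 1))`. -/
noncomputable def Q (a : ℕ → ℂ) (n : ℕ) (z : ℂ) : ℂ := (z ^ n)⁻¹ * S a n z

/-- The inner half of a two-sided series. -/
noncomputable def R0 (b : ℤ → ℂ) (z : ℂ) : ℂ := ∑' j : ℕ, b (j : ℤ) * z ^ j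

/-- The outer half of a two-sided series. -/
noncomputable def R1 (b : ℤ → ℂ) (z : ℂ) : ℂ := ∑' j : ℕ, b (-(j : ℤ) - 1) * z⁻¹ ^ (j + 1)

/-- The point `e^{it}`. -/
noncomputable def u (t : ℝ) : ℂ := exp ((t : ℂ) * I)

/-- The distance of `e^{it}` to `E`. -/
noncomputable def d (E : Set ℂ) (t : ℝ) : ℝ := infDist (u t) E

/-- The closed curve with polar radius `ρ`. -/
noncomputable def w (ρ : ℝ → ℝ) (t : ℝ) : ℂ := (ρ t : ℂ) * u t

/-- Its logarithmic derivative `w' / w = i + ρ' / ρ`. -/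
noncomputable def κ (ρ : ℝ → ℝ) (t : ℝ) : ℂ := I + ((deriv ρ t / ρ t : ℝ) : ℂ)

/-- The radii `1 + σ d` (outer curve for `σ > 0`, inner curve for `σ < 0`). -/
noncomputable def rad (E : Set ℂ) (σ : ℝ) (t : ℝ) : ℝ := 1 + σ * d E t

/-- The angles of the points of `E`. -/
def AE (E : Set ℂ) : Set ℝ := {t | t ∈ Ioc 0 (2 * Real.pi) ∧ u t ∈ E}

/-- The angles of the points outside `E`. -/
def NE (E : Set ℂ) : Set ℝ := {t | t ∈ Ioc 0 (2 * Real.pi) ∧ u t ∉ E}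

/-- `E` is a closed nonempty set of the circle and the partial sums are bounded by `M` on `E`. -/
structure Dat (a : ℕ → ℂ) (E : Set ℂ) (M : ℝ) : Prop where
  closed : IsClosed E
  ne : E.Nonempty
  circ : ∀ ξ ∈ E, ‖ξ‖ = 1
  bd : ∀ ξ ∈ E, ∀ n : ℕ, ‖S a n ξ‖ ≤ M

/-- `b` is the limit of the shifts of `a` by `φ k`. -/
def Lim (a : ℕ → ℂ) (φ : ℕ → ℕ) (b : ℤ → ℂ) : Prop :=
  StrictMono φ ∧ ∀ j : ℤ, Tendsto (fun k => a ((φ k : ℤ) + j).toNat) atTop (𝓝 (b j))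

/-- `g` continues the power series at `ζ`. -/
def Cont (a : ℕ → ℂ) (ζ : ℂ) (r : ℝ) (g : ℂ → ℂ) : Prop :=
  0 < r ∧ DifferentiableOn ℂ g (ball ζ r) ∧ ∀ z ∈ ball ζ r, ‖z‖ < 1 → g z = P a z

/-- admissible radii -/
structure Adm (ρ : ℝ → ℝ) : Prop where
  lip : ∃ L : NNReal, LipschitzWith L ρ
  per : ∀ t, ρ (t + 2 * Real.pi) = ρ t
  half : ∀ t, 1 / 2 ≤ ρ t

end Run7.h371.TB
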