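import Pool.Agent.Run7.h371.TB.Defs

/-!
# Interface for MP_64ccd3_an (frozen statement S04875, full answer)

`f(z) = ∑ a_n z^n` has partial sums bounded by `M` on its singular set `E`. We prove `a_n → 0`; then M. Riesz's
theorem (`RieszConv`) gives the convergence at all regular points.
Every piece is a closed `Prop`; the proof is in the doc string.
-/

set_option autoImplicit false

namespace Run7.h371.TB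

open Complex MeasureTheory Filter Topology Set Metric

/-- **Abel summation.** With `v = z / ξ` and `s_J = S c J ξ`: `c_j z^j = (s_{j+1} - s_j) v^j`, hence
`P c z = (1 - v) ∑_{j ≥ 0} s_{j+1} v^j` and `|P c z| ≤ |1 - v| K / (1 - |v|)`, `|1 - v| = |ξ - z|`, `|v| = |z|`. -/
def AbelBound : Prop := ∀ (c : ℕ → ℂ) (ξ : ℂ) (K : ℝ), ‖ξ‖ = 1 → (∀ n, ‖S c n ξ‖ ≤ K) →
  ∀ z : ℂ, ‖z‖ < 1 → ‖P c z‖ ≤ K * ‖z - ξ‖ / (1 - ‖z‖)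

/-- **Fundamental theorem of calculus for a Lipschitz closed curve.**
For `m ≠ 0`: `w^m κ = (1/m) d/dt (ρ^m e^{imt})` almost everywhere; real and imaginary parts
`ρ^m cos(mt)`, `ρ^m sin(mt)` are Lipschitz on `[0, 2π]`, so Mathlib's
`AbsolutelyContinuousOnInterval.integral_deriv_eq_sub` and periodicity give `0`. For `m = 0` use `log ρ`. -/
def CurveFTC : Prop := ∀ ρ : ℝ → ℝ, Adm ρ →
  (∀ m : ℤ, m ≠ 0 → ∫ t in (0 : ℝ)..(2 * Real.pi), w ρ t ^ m * κ ρ t = 0) ∧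
  ∫ t in (0 : ℝ)..(2 * Real.pi), κ ρ t = 2 * Real.pi * I

/-- **Cauchy for the shifted series** (from `CurveFTC`). `T a n (s w) = ∑_j a (n+j) s^j w^j` converges uniformly
(`|w| ≤ 1`, `s < 1`, bounded coefficients, `κ` bounded and measurable); integrate term by term. -/
def InnerCauchy : Prop := CurveFTC → ∀ (a : ℕ → ℂ) (C : ℝ), (∀ n, ‖a n‖ ≤ C) → ∀ ρ : ℝ → ℝ, Adm ρ → (∀ t, ρ t ≤ 1) →
  ∀ s : ℝ, 0 < s → s < 1 → ∀ n : ℕ,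
    ∫ t in (0 : ℝ)..(2 * Real.pi), T a n ((s : ℂ) * w ρ t) * κ ρ t = 2 * Real.pi * I * a n

/-- **Cauchy outside** (from `CurveFTC`). `Q a n w = ∑_{j < n} a j w^(j - n)`, a finite sum of negative powers. -/
def OuterCauchy : Prop := CurveFTC → ∀ (a : ℕ → ℂ) (ρ : ℝ → ℝ), Adm ρ → ∀ n : ℕ,
    ∫ t in (0 : ℝ)..(2 * Real.pi), Q a n (w ρ t) * κ ρ t = 0

/-- **Bessel's inequality.** With `L n = ∫_A g e^{-int}`: `∑_F |L n|^2 = ∫_A g conj(∑_F L n e^{int}) ≤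
(∫_A |g|^2)^(1/2) (2π ∑_F |L n|^2)^(1/2)` and `∫_A |g|^2 ≤ 2π K^2`. -/
def Bessel : Prop := ∀ (A : Set ℝ), MeasurableSet A → A ⊆ Ioc 0 (2 * Real.pi) → ∀ (g : ℝ → ℂ), Measurable g →
  ∀ K : ℝ, (∀ t ∈ A, ‖g t‖ ≤ K) → ∀ F : Finset ℕ,
    ∑ n ∈ F, ‖∫ t in A, (u t ^ n)⁻¹ * g t‖ ^ 2 ≤ (2 * Real.pi * K) ^ 2

/-- **The trick of M. Riesz.** Put `p(z) = (z - ζ)^2 + ρ^2 ζ z`. On `|z - ζ| = ρ` one has
`|p(z)| = ρ ||z|^2 - 1| ≤ 3 ρ ||z| - 1|` (write `z = ζ (1 + ρ e^{iψ})`: both sides are `ρ^2 |2 cos ψ + ρ|`), so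
`|F p| ≤ 3 ρ K` there, and inside by the maximum principle; for `|z - ζ| ≤ ρ / 4`,
`|p(z)| ≥ ρ^2 (1 - ρ / 4) - ρ^2 / 16 ≥ ρ^2 / 2`. Hence `|F| ≤ 6 K / ρ`. -/
def RieszTrick : Prop := ∀ (ζ : ℂ) (ρ K : ℝ) (F : ℂ → ℂ), ‖ζ‖ = 1 → 0 < ρ → ρ ≤ 1 → DiffContOnCl ℂ F (ball ζ ρ) →
  (∀ z ∈ sphere ζ ρ, |‖z‖ - 1| * ‖F z‖ ≤ K) → ∀ z ∈ closedBall ζ (ρ / 4), ‖F z‖ ≤ 6 * K / ρ

/-- **Theorem of M. Riesz** (Fatou-Riesz): if `a_n → 0`, the series converges at every regular point of the circle.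
Take `ρ = min 1 (r/2)`, `p` as in `RieszTrick`, `F_n = (S a n - g) / z^n` on the ball `B(ζ, ρ)` (if `r/2 ≥ 1` shrink so that
`0` is not in the closed ball: `ρ = min (1/2) (r/2)`). Then `F_n(ζ) = (S a n ζ - g ζ)/ζ^n`, and it is enough that
`sup_{|z - ζ| = ρ} ||z| - 1| |F_n(z)| → 0` (then `RieszTrick` at the centre). For `|z| < 1`:
`|F_n| = |T a n z| ≤ sup_{j ≥ n} |a_j| / (1 - |z|)`. For `|z| ≥ 1`: `(|z|-1)|z|^(-n)|g| ≤ sup|g| / n`, and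
`(|z|-1)|Q a n z| ≤ (|z| - 1) ∑_{i=1}^n |a_{n-i}||z|^(-i) ≤ sup_{j ≥ m} |a_j| + m C / (n - m)` for all `m < n`
(terms with `n - i ≥ m` and `n - i < m`, `(x - 1) x^(-k) ≤ 1/k`). -/
def RieszConv : Prop := RieszTrick → ∀ (a : ℕ → ℂ), Tendsto a atTop (𝓝 0) → ∀ (ζ : ℂ) (r : ℝ) (g : ℂ → ℂ), ‖ζ‖ = 1 →
  Cont a ζ r g → Tendsto (fun n => S a n ζ) atTop (𝓝 (g ζ))

/-- **Limits of the two halves.** Dominated convergence for series (`tendsto_tsum_of_dominated_convergence`), `|a_n| ≤ C`: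
`T a (φ k) z = ∑ a(φ k + j) z^j`, `Q a n z = ∑_{i < n} a(n - 1 - i) z^(-(i+1))`. -/
def Halves : Prop := ∀ (a : ℕ → ℂ) (C : ℝ), (∀ n, ‖a n‖ ≤ C) → ∀ (φ : ℕ → ℕ) (b : ℤ → ℂ), Lim a φ b →
  (∀ z : ℂ, ‖z‖ < 1 → Tendsto (fun k => T a (φ k) z) atTop (𝓝 (R0 b z))) ∧
  (∀ z : ℂ, 1 < ‖z‖ → Tendsto (fun k => Q a (φ k) z) atTop (𝓝 (R1 b z)))

/-- **Local continuation of the limit** (from `RieszTrick` and `Halves`). Let `ρ = min (1/2) (r/2)` and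
`F_k = (z^(φ k))⁻¹ (S a (φ k) z - g z)` on `B(ζ, ρ)`, differentiable on a neighbourhood of the closed ball. For
`|z| < 1`, `F_k = - T a (φ k) z`, so `(1-|z|)|F_k| ≤ C`; for `|z| ≥ 1`, `(|z|-1)|F_k| ≤ C + sup|g|`. By `RieszTrick`
`|F_k| ≤ K'` on `B(ζ, ρ/4)`. By `Halves`, off the circle `F_k → - R0 b` (inside), `F_k → R1 b` (outside:
`|z|^(-φ k)|g| → 0`). Cauchy's formula on the circle `C(ζ, ρ/5)` and dominated convergence (two points of the circle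
are on the unit circle) show that the limit is the Cauchy integral of its boundary values, which is differentiable in
`B(ζ, ρ/5)` (`hasFPowerSeriesOn_cauchy_integral`). -/
def LocalCont : Prop := RieszTrick → Halves → ∀ (a : ℕ → ℂ) (C : ℝ), (∀ n, ‖a n‖ ≤ C) → ∀ (φ : ℕ → ℕ) (b : ℤ → ℂ),
  Lim a φ b → ∀ (ζ : ℂ) (r : ℝ) (g : ℂ → ℂ), ‖ζ‖ = 1 → Cont a ζ r g →
  ∃ ρ : ℝ, 0 < ρ ∧ ∃ Ψ : ℂ → ℂ, DifferentiableOn ℂ Ψ (ball ζ ρ) ∧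
    (∀ z ∈ ball ζ ρ, ‖z‖ < 1 → Ψ z = - R0 b z) ∧ (∀ z ∈ ball ζ ρ, 1 < ‖z‖ → Ψ z = R1 b z)

/-- **Global continuation.** Define `Φ = - R0 b` inside, `R1 b` outside, and at a point `ζ` of the circle outside `E`
the value at `ζ` of the local `Ψ`; two local functions agree on the overlap at points off the circle, by continuity
also on the circle. `R0 b`, `R1 b` are differentiable inside/outside since `|b_j| ≤ C`. -/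
def GlobalCont : Prop := ∀ (b : ℤ → ℂ) (C : ℝ), (∀ j, ‖b j‖ ≤ C) → ∀ E : Set ℂ, IsClosed E →
  (∀ ζ : ℂ, ‖ζ‖ = 1 → ζ ∉ E → ∃ ρ : ℝ, 0 < ρ ∧ ∃ Ψ : ℂ → ℂ, DifferentiableOn ℂ Ψ (ball ζ ρ) ∧
    (∀ z ∈ ball ζ ρ, ‖z‖ < 1 → Ψ z = - R0 b z) ∧ (∀ z ∈ ball ζ ρ, 1 < ‖z‖ → Ψ z = R1 b z)) →
  ∃ Φ : ℂ → ℂ, DifferentiableOn ℂ Φ Eᶜ ∧ (∀ z : ℂ, ‖z‖ < 1 → z ∉ E → Φ z = - R0 b z) ∧
    (∀ z : ℂ, 1 < ‖z‖ → z ∉ E → Φ z = R1 b z)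

/-- **Bounds for the limit** (from `AbelBound`). For `α ∈ E`, the sums `∑_{j<J} b_j α^j = lim α^(-φ k) (S a (φ k + J) α -
S a (φ k) α)` are at most `2 M`, likewise `∑_{i=1}^J b_{-i} α^{-i}`; apply `AbelBound` (outside with the variable `1/z` and the point `1/α`). -/
def LimBound : Prop := AbelBound → ∀ (a : ℕ → ℂ) (E : Set ℂ) (M : ℝ), Dat a E M → ∀ (φ : ℕ → ℕ) (b : ℤ → ℂ), Lim a φ b →
  (∀ j, ‖b j‖ ≤ 2 * M) ∧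
  (∀ α ∈ E, ∀ z : ℂ, ‖z‖ < 1 → ‖R0 b z‖ ≤ 2 * M * ‖z - α‖ / (1 - ‖z‖)) ∧
  (∀ α ∈ E, ∀ z : ℂ, 1 < ‖z‖ → ‖R1 b z‖ ≤ 2 * M * ‖z - α‖ / (‖z‖ - 1))

/-- **Boundedness near the circle** (from `RieszTrick`). For `|ζ| = 1`, `D = infDist ζ E > 0`, let `α ∈ E` with `|ζ - α| = D`,
`ρ = D / 2 ≤ 1`; `Φ` is differentiable on the closed ball `B(ζ, ρ) ⊆ Eᶜ`, and on the sphere
`||z|-1||Φ z| ≤ 2M |z - α| ≤ 3 M D` (also when `|z| = 1`, then the left side is `0`). `RieszTrick`: `|Φ| ≤ 6 * 3 M D / (D/2) = 36 M`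
on `B(ζ, D/8)`. -/
def PhiBound : Prop := RieszTrick → ∀ (b : ℤ → ℂ) (E : Set ℂ) (M : ℝ), IsClosed E → E.Nonempty → (∀ ξ ∈ E, ‖ξ‖ = 1) → 0 ≤ M →
  (∀ α ∈ E, ∀ z : ℂ, ‖z‖ < 1 → ‖R0 b z‖ ≤ 2 * M * ‖z - α‖ / (1 - ‖z‖)) →
  (∀ α ∈ E, ∀ z : ℂ, 1 < ‖z‖ → ‖R1 b z‖ ≤ 2 * M * ‖z - α‖ / (‖z‖ - 1)) →
  ∀ Φ : ℂ → ℂ, DifferentiableOn ℂ Φ Eᶜ → (∀ z : ℂ, ‖z‖ < 1 → z ∉ E → Φ z = - R0 b z) →
    (∀ z : ℂ, 1 < ‖z‖ → z ∉ E → Φ z = R1 b z) →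
  ∀ ζ : ℂ, ‖ζ‖ = 1 → ζ ∉ E → ∀ z ∈ closedBall ζ (infDist ζ E / 8), ‖Φ z‖ ≤ 36 * M

/-- **Bounds for `T` and `Q`** (from `AbelBound`). Partial sums at `ξ ∈ E` of the shifted series: `∑_{j<J} a_{n+j} ξ^j =
ξ^(-n)(S a (n+J) ξ - S a n ξ)`, at most `2M`. For `Q`: coefficients `c_i = a_{n-1-i}` (`i < n`, else `0`) in the variable `1/z` at the point
`1/ξ`: `∑_{i<J} a_{n-1-i} ξ^{-(i+1)} = ξ^(-n)(S a n ξ - S a (n - J) ξ)`. `|a_n| = |S a (n+1) ξ - S a n ξ| ≤ 2M`. -/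
def TBound : Prop := AbelBound → ∀ (a : ℕ → ℂ) (E : Set ℂ) (M : ℝ), Dat a E M → (∀ n, ‖a n‖ ≤ 2 * M) ∧ 0 ≤ M ∧
  (∀ n : ℕ, ∀ ξ ∈ E, ∀ z : ℂ, ‖z‖ < 1 → ‖T a n z‖ ≤ 2 * M * ‖z - ξ‖ / (1 - ‖z‖)) ∧
  (∀ n : ℕ, ∀ ξ ∈ E, ∀ z : ℂ, 1 < ‖z‖ → ‖Q a n z‖ ≤ 2 * M * ‖z - ξ‖ / (‖z‖ - 1))

/-- **Facts about the two curves.** `d` is 1-Lipschitz and `2π`-periodic, `0 ≤ d ≤ 2`; on `AE E` we have `d = 0`, a minimum of `d`, so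
`deriv = 0` (`IsLocalMin.deriv_eq_zero`). If `α ∈ E` is a nearest point of `u t`: `|s w₋ - α| ≤ (1 - |s w₋|) + d ≤ (1 + 1/σ)(1 - |s w₋|)` as
`1 - |s w₋| ≥ σ d`; `|w₊ - α| ≤ (σ + 1) d = (1 + 1/σ)(|w₊| - 1)`. `|κ| ≤ 1 + σ/(1/2) ≤ 2`. -/
def CurveFacts : Prop := ∀ E : Set ℂ, IsClosed E → E.Nonempty → (∀ ξ ∈ E, ‖ξ‖ = 1) → ∀ σ : ℝ, 0 < σ → σ ≤ 1 / 4 →
  Adm (rad E (-σ)) ∧ Adm (rad E σ) ∧ (∀ t, rad E (-σ) t ≤ 1) ∧ MeasurableSet (AE E) ∧ MeasurableSet (NE E) ∧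
  Disjoint (AE E) (NE E) ∧ AE E ∪ NE E = Ioc 0 (2 * Real.pi) ∧
  (∀ t ∈ AE E, w (rad E (-σ)) t = u t ∧ w (rad E σ) t = u t ∧ κ (rad E (-σ)) t = I ∧ κ (rad E σ) t = I) ∧
  (∀ t, ‖κ (rad E (-σ)) t‖ ≤ 2 ∧ ‖κ (rad E σ) t‖ ≤ 2) ∧ Measurable (κ (rad E (-σ))) ∧ Measurable (κ (rad E σ)) ∧
  Continuous (w (rad E (-σ))) ∧ Continuous (w (rad E σ)) ∧
  (∀ t ∈ NE E, 0 < d E t ∧ ‖w (rad E (-σ)) t‖ < 1 ∧ 1 < ‖w (rad E σ) t‖) ∧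
  (∀ t, ∃ α ∈ E, (∀ s : ℝ, 0 < s → s ≤ 1 → ‖(s : ℂ) * w (rad E (-σ)) t - α‖ ≤ (1 + 1 / σ) * (1 - ‖(s : ℂ) * w (rad E (-σ)) t‖)) ∧
    ‖w (rad E σ) t - α‖ ≤ (1 + 1 / σ) * (‖w (rad E σ) t‖ - 1))

/-- **Splitting the Cauchy formulas over `AE` and `NE`** (interval integral over `0..2π` = integral over `AE ∪ NE`, integrands
are bounded and measurable; on `AE` use the values `w = u`, `κ = I`, and `Q a n (u t) = (u t ^ n)⁻¹ * S a n (u t)`). -/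
def KeySplit : Prop := InnerCauchy → OuterCauchy → CurveFTC → CurveFacts → ∀ (a : ℕ → ℂ) (E : Set ℂ) (C : ℝ), (∀ n, ‖a n‖ ≤ C) →
  IsClosed E → E.Nonempty → (∀ ξ ∈ E, ‖ξ‖ = 1) → ∀ σ : ℝ, 0 < σ → σ ≤ 1 / 4 → ∀ n : ℕ,
  (∀ s : ℝ, 0 < s → s < 1 → 2 * Real.pi * I * a n = I * (∫ t in AE E, T a n ((s : ℂ) * u t)) +
    ∫ t in NE E, T a n ((s : ℂ) * w (rad E (-σ)) t) * κ (rad E (-σ)) t) ∧
  0 = I * (∫ t in AE E, (u t ^ n)⁻¹ * S a n (u t)) + ∫ t in NE E, Q a n (w (rad E σ) t) * κ (rad E σ) t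

/-- **Dominated convergence as `s → 1`** : `|T a n (s w₋)| ≤ 2 M (1 + 1/σ)` (`TBound` and `CurveFacts`), `T a n` is continuous in the open
disc, `|w₋| < 1` on `NE`. -/
def KeyLim : Prop := AbelBound → TBound → CurveFacts → ∀ (a : ℕ → ℂ) (E : Set ℂ) (M : ℝ), Dat a E M → ∀ σ : ℝ, 0 < σ → σ ≤ 1 / 4 →
  ∀ n : ℕ, Tendsto (fun s : ℝ => ∫ t in NE E, T a n ((s : ℂ) * w (rad E (-σ)) t) * κ (rad E (-σ)) t) (𝓝[<] 1)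
    (𝓝 (∫ t in NE E, T a n (w (rad E (-σ)) t) * κ (rad E (-σ)) t))

/-- **The circle part.** `T a n z = (z ^ n)⁻¹ (P a z - S a n z)`, so for `0 < s < 1`
`∫_{AE} T a n (s u) = s^(-n) (ℓ_n(s) - ∫_{AE} (u^n)⁻¹ S a n (s u))`, `ℓ_n(s) = ∫_{AE} (u ^ n)⁻¹ P a (s u)`. If the left side converges as
`s → 1` (for every `n`), then `ℓ_n(s) → L n` where `L n = lim ∫_{AE} T a n (s u) + ∫_{AE} (u^n)⁻¹ S a n u`.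
By `AbelBound` `|P a (s u t)| ≤ M` for `t ∈ AE E`; by `Bessel` `∑_F |ℓ_n(s)|^2 ≤ (2πM)^2`, in the limit
`∑_F |L n|^2 ≤ (2πM)^2` for all finite `F`, so `∑ |L n|^2` converges and `L n → 0`. -/
def KeyEll : Prop := AbelBound → Bessel → ∀ (a : ℕ → ℂ) (E : Set ℂ) (M : ℝ), Dat a E M → ∀ J : ℕ → ℂ,
  (∀ n : ℕ, Tendsto (fun s : ℝ => ∫ t in AE E, T a n ((s : ℂ) * u t)) (𝓝[<] 1) (𝓝 (J n))) →
  Tendsto (fun n : ℕ => J n + ∫ t in AE E, (u t ^ n)⁻¹ * S a n (u t)) atTop (𝓝 0)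

/-- **The key identity** (assembly, helper371). Let `0 < σ ≤ 1/4`, `w₋`, `w₊` the curves with radii `rad E (-σ)`, `rad E σ`.
`KeySplit` and `KeyLim` give the limits `J n` of `∫_{AE} T a n (s u)`; `L n = J n + ∫_{AE} (u^n)⁻¹ S a n u → 0` by `KeyEll`; add the two identities
of `KeySplit` (`s → 1` in the first). -/
def KeyIdentity : Prop := ∀ (a : ℕ → ℂ) (E : Set ℂ) (M : ℝ), Dat a E M → ∀ σ : ℝ, 0 < σ → σ ≤ 1 / 4 →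
  ∃ L : ℕ → ℂ, Tendsto L atTop (𝓝 0) ∧ ∀ n : ℕ,
    2 * Real.pi * I * a n = I * L n + ∫ t in NE E, (T a n (w (rad E (-σ)) t) * κ (rad E (-σ)) t +
      Q a n (w (rad E σ) t) * κ (rad E σ) t)

/-- **Passage to the limit** (from `TBound`, `CurveFacts`, `Halves`). Let `n = φ k → ∞`: on `NE E`, `|w₋| < 1 < |w₊|`,
`|T a n w₋| ≤ 2M(1 + 1/σ)`, `|Q a n w₊| ≤ 2M(1+1/σ)`, `|κ| ≤ 2`; dominated convergence. -/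
def LimitIdentity : Prop := AbelBound → TBound → CurveFacts → Halves → ∀ (a : ℕ → ℂ) (E : Set ℂ) (M : ℝ), Dat a E M →
  ∀ (φ : ℕ → ℕ) (b : ℤ → ℂ), Lim a φ b → ∀ σ : ℝ, 0 < σ → σ ≤ 1 / 4 →
  (∃ L : ℕ → ℂ, Tendsto L atTop (𝓝 0) ∧ ∀ n : ℕ,
    2 * Real.pi * I * a n = I * L n + ∫ t in NE E, (T a n (w (rad E (-σ)) t) * κ (rad E (-σ)) t +
      Q a n (w (rad E σ) t) * κ (rad E σ) t)) →
  2 * Real.pi * I * b 0 = ∫ t in NE E, (R0 b (w (rad E (-σ)) t) * κ (rad E (-σ)) t +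
      R1 b (w (rad E σ) t) * κ (rad E σ) t)

/-- **The limit `σ → 0`.** On `NE E` the integrand is `-Φ(w₋)κ₋ + Φ(w₊)κ₊` with `w₋, w₊ ∈ B(u t, d t / 8)` for `σ ≤ 1/8`, so it is bounded
by `2 * 36 M * 2`; as `σ → 0`, `w₋, w₊ → u t` and `Φ` is continuous at `u t ∉ E`, `κ₋, κ₊ → I` (`|d'| ≤ 1`, also where `deriv = 0` by
convention), so the integrand tends to `0`. Dominated convergence along `σ = 1/(8(k+1))`: `2πi b_0 = 0`. -/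
def SigmaLimit : Prop := CurveFacts → ∀ (b : ℤ → ℂ) (E : Set ℂ) (M : ℝ), IsClosed E → E.Nonempty → (∀ ξ ∈ E, ‖ξ‖ = 1) →
  ∀ Φ : ℂ → ℂ, DifferentiableOn ℂ Φ Eᶜ → (∀ z : ℂ, ‖z‖ < 1 → z ∉ E → Φ z = - R0 b z) →
    (∀ z : ℂ, 1 < ‖z‖ → z ∉ E → Φ z = R1 b z) →
  (∀ ζ : ℂ, ‖ζ‖ = 1 → ζ ∉ E → ∀ z ∈ closedBall ζ (infDist ζ E / 8), ‖Φ z‖ ≤ 36 * M) →
  (∀ σ : ℝ, 0 < σ → σ ≤ 1 / 4 → 2 * Real.pi * I * b 0 = ∫ t in NE E, (R0 b (w (rad E (-σ)) t) * κ (rad E (-σ)) t +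
      R1 b (w (rad E σ) t) * κ (rad E σ) t)) → b 0 = 0

/-- **Extraction.** A bounded sequence which does not tend to `0` has shifts `φ k` along which all `a (φ k + j)` converge and
`b 0 ≠ 0` (compactness of `ℤ → closedBall 0 C`, `IsCompact.tendsto_subseq`). -/
def Extract : Prop := ∀ (a : ℕ → ℂ) (C : ℝ), (∀ n, ‖a n‖ ≤ C) → ¬ Tendsto a atTop (𝓝 0) →
  ∃ (φ : ℕ → ℕ) (b : ℤ → ℂ), Lim a φ b ∧ b 0 ≠ 0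

/-- **The coefficients tend to zero.** Assembly of all the above. -/
def CoeffZero : Prop := ∀ (a : ℕ → ℂ) (E : Set ℂ) (M : ℝ), Dat a E M →
  (∀ ζ : ℂ, ‖ζ‖ = 1 → ζ ∉ E → ∃ (r : ℝ) (g : ℂ → ℂ), Cont a ζ r g) → Tendsto a atTop (𝓝 0)

end Run7.h371.TB
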